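import Pool.Agent.U644.IAQ.Main

/-!
# The associated Lie ring of `IA_3` is not a free Lie ring modulo quadratic relations

Let `χ, χ', μ` be the automorphisms of the free group on `x_0, x_1, x_2` which fix `x_1`, `x_2` and
send `x_0` to `x_1⁻¹ x_0 x_1`, `x_2⁻¹ x_0 x_2` and `x_0 [x_1, x_2]`. The commutator `[χ, χ']` is
the conjugation of `x_0` by `[x_1, x_2]`, so it commutes with `μ`, and `[[χ, χ'], μ]` is a relation
of degree three of `E_0^*(IA_3)`. No non-zero multiple of it lies in the ideal generated by the
relations of degree two.

Proof. Magnus coefficients give two homomorphisms `tA, tN : IA_3 → ℤ` with `tA ∪ tN = 0`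
(the coboundary of the function `FF` is cohomologous to the cup product). Hence
`v ↦ tA(v) A + tN(v) N` defines, for every Lie ring containing elements `A`, `N`, a homomorphism
of `L[V]` to it which kills all the relations of degree two, whereas it sends `[[χ, χ'], μ]`
to `[[A, N], N]`.
-/

namespace Pool.Agent.Results.MP_df4ecf_al.IA3NotQuadratic

open BurnLie Pool.Agent.U644.IAQ

/-- It is not true that `E_0^*(IA_n)` is a free Lie ring modulo quadratic relations for all
`n ≥ 2`: it is false for `n = 3`, where the kernel of `L[V] → E_0^*(IA_3)` has an element no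
non-zero multiple of which lies in the Lie ideal generated by the degree-two part of the kernel
(so it is false also after tensoring with `ℚ`). -/
theorem result :
    (¬ ∀ n : ℕ, 2 ≤ n → IsQuadratic (IA n)) ∧ ¬ IsQuadratic (IA 3) ∧
    NotRationallyQuadratic (IA 3) :=
  ⟨fun h => main.1 (h 3 (by norm_num)), main.1, main.2⟩

end Pool.Agent.Results.MP_df4ecf_al.IA3NotQuadratic
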